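import Pool.Agent.Helper3.TP.St

/-!
# Project TP, module RAD
-/

set_option autoImplicit false

open Helper3.TP

namespace Pool.Agent.Helper37.TP

private theorem num : 2 * 23 ^ 23 ≤ 24 ^ 23 := by norm_num

private theorem two_pow_log (b : ℕ) : 2 ^ (Nat.log 2 b + 1) ≤ (b + 2) ^ 2 := by
  rcases Nat.eq_zero_or_pos b with h | h
  · subst h
    simp
  · have h1 : 2 ^ Nat.log 2 b ≤ b := Nat.pow_log_le_self 2 (by omega)
    rw [pow_succ]
    nlinarith

private theorem base (n k : ℕ) : (n + 1) ^ k ≤ 2 ^ (n * k) := by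
  rw [pow_mul]
  exact Nat.pow_le_pow_left (Nat.succ_le_of_lt (Nat.lt_two_pow_self)) k

theorem hRad : PRad := by
  refine ⟨?_, ?_, ?_, ?_, ?_⟩
  · intro Y t ht
    have h1 : t < 2 ^ (Nat.log 2 Y + 1) :=
      lt_of_le_of_lt ht (Nat.lt_pow_succ_log_self (by norm_num) Y)
    unfold rad
    generalize Nat.log 2 Y + 1 = l at h1
    have h2 : (2 * 23 ^ 23) ^ l ≤ (24 ^ 23) ^ l := Nat.pow_le_pow_left num l
    rw [mul_pow, ← pow_mul, ← pow_mul] at h2
    have h3 : 0 < 23 ^ (23 * l) := by positivity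
    calc 23 ^ (23 * l) * t < 23 ^ (23 * l) * 2 ^ l := Nat.mul_lt_mul_of_pos_left h1 h3
      _ = 2 ^ l * 23 ^ (23 * l) := mul_comm _ _
      _ ≤ 24 ^ (23 * l) := h2
  · intro Y Y' h
    unfold rad
    have := Nat.log_mono_right (b := 2) h
    omega
  · intro D Y Y' h
    unfold ball rad
    have := Nat.log_mono_right (b := 2) h
    exact Nat.pow_le_pow_right (by omega) (by omega)
  · intro D
    refine ⟨96 * D, fun Y => ?_⟩
    unfold ball rad
    have h1 := two_pow_log Y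
    generalize Nat.log 2 Y + 1 = l at *
    by_cases hl : l = 0
    · subst hl
      calc (2 * D + 1) ^ (23 * 0 + 1) ≤ 2 ^ (2 * D * (23 * 0 + 1)) := base _ _
        _ ≤ 2 ^ (96 * D) := Nat.pow_le_pow_right (by norm_num) (by omega)
        _ ≤ (Y + 2) ^ (96 * D) := Nat.pow_le_pow_left (by omega) _
    calc (2 * D + 1) ^ (23 * l + 1) ≤ 2 ^ (2 * D * (23 * l + 1)) := base _ _
      _ ≤ 2 ^ (l * (48 * D)) := by
        apply Nat.pow_le_pow_right (by norm_num)
        have : 23 * l + 1 ≤ 24 * l := by omega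
        calc 2 * D * (23 * l + 1) ≤ 2 * D * (24 * l) := Nat.mul_le_mul_left _ this
          _ = l * (48 * D) := by ring
      _ = (2 ^ l) ^ (48 * D) := pow_mul _ _ _
      _ ≤ ((Y + 2) ^ 2) ^ (48 * D) := Nat.pow_le_pow_left h1 _
      _ = (Y + 2) ^ (96 * D) := by rw [← pow_mul]; congr 1; ring
  · intro lam
    refine ⟨2 * lam, fun b => ?_⟩
    have h1 := two_pow_log b
    generalize Nat.log 2 b + 1 = l at *
    calc (lam + 1) ^ l ≤ 2 ^ (lam * l) := base _ _
      _ = (2 ^ l) ^ lam := by rw [mul_comm, pow_mul]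
      _ ≤ ((b + 2) ^ 2) ^ lam := Nat.pow_le_pow_left h1 _
      _ = (b + 2) ^ (2 * lam) := by rw [← pow_mul]

end Pool.Agent.Helper37.TP
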