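import Pool.Agent.Helper49.TP.StF

/-!
# Project TP (MP_953b28_co), module FTC: numbers of triangles in a transitive graph
-/

set_option autoImplicit false

namespace Pool.Agent.Helper37.TP

open Finset Pool.Agent.Helper49.TP Pool.Agent.Helper93.IA

private lemma ind_inv {n : ℕ} {A B C : Finset (Fin n × Fin n)} {h : P3 n} (hh : AuG A B C h)
    (r c s : Fin n) : ind A B C (h.1 r) (h.2.1 c) (h.2.2 s) = ind A B C r c s := by
  obtain ⟨h1, h2, h3⟩ := hh
  unfold ind
  simp only [h1, h2, h3]

private lemma ind_nonneg {n : ℕ} (A B C : Finset (Fin n × Fin n)) (r c s : Fin n) :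
    0 ≤ ind A B C r c s := by
  unfold ind
  split_ifs <;> norm_num

private lemma ind_le {n : ℕ} (A B C : Finset (Fin n × Fin n)) (r c s : Fin n) :
    ind A B C r c s ≤ 1 := by
  unfold ind
  split_ifs <;> norm_num

/-- a constant function with total `N` has the value `N / n` -/
private lemma const_val {n : ℕ} (hn : 0 < n) (S : Fin n → ℝ) (N : ℝ) (hS : ∀ i j, S i = S j)
    (hN : ∑ i, S i = N) (i : Fin n) : S i = N / (n : ℝ) ^ 3 * (n : ℝ) ^ 2 := by
  have h1 : ∑ j, S j = (n : ℝ) * S i := by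
    rw [Finset.sum_congr rfl (fun j _ => hS j i)]
    simp
  have hn' : (n : ℝ) ≠ 0 := by positivity
  rw [hN] at h1
  rw [h1]
  field_simp

theorem hFTC : StFTC := by
  intro n A B C hn hT
  obtain ⟨hTr, hTc, hTs⟩ := hT
  have hn' : (0 : ℝ) < n := by exact_mod_cast hn
  refine ⟨(∑ r, ∑ c, ∑ s, ind A B C r c s) / (n : ℝ) ^ 3, ?_, ?_, ?_, ?_, ?_⟩
  · apply div_nonneg _ (by positivity)
    exact Finset.sum_nonneg fun r _ => Finset.sum_nonneg fun c _ => Finset.sum_nonneg fun s _ =>
      ind_nonneg A B C r c s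
  · rw [div_le_one (by positivity)]
    calc ∑ r, ∑ c, ∑ s, ind A B C r c s ≤ ∑ r : Fin n, ∑ c : Fin n, ∑ s : Fin n, (1 : ℝ) :=
          Finset.sum_le_sum fun r _ => Finset.sum_le_sum fun c _ => Finset.sum_le_sum fun s _ =>
            ind_le A B C r c s
      _ = (n : ℝ) ^ 3 := by simp; ring
  · refine const_val hn _ _ ?_ rfl
    intro i j
    obtain ⟨h, hG, rfl⟩ := hTr i j
    rw [← Equiv.sum_comp h.2.1 (fun c => ∑ s, ind A B C (h.1 i) c s)]
    apply Finset.sum_congr rfl
    intro c _
    rw [← Equiv.sum_comp h.2.2 (fun s => ind A B C (h.1 i) (h.2.1 c) s)]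
    apply Finset.sum_congr rfl
    intro s _
    exact (ind_inv hG i c s).symm
  · refine const_val hn _ _ ?_ ?_
    · intro i j
      obtain ⟨h, hG, rfl⟩ := hTc i j
      rw [← Equiv.sum_comp h.1 (fun r => ∑ s, ind A B C r (h.2.1 i) s)]
      apply Finset.sum_congr rfl
      intro r _
      rw [← Equiv.sum_comp h.2.2 (fun s => ind A B C (h.1 r) (h.2.1 i) s)]
      apply Finset.sum_congr rfl
      intro s _
      exact (ind_inv hG r i s).symm
    · exact Finset.sum_comm
  · refine const_val hn _ _ ?_ ?_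
    · intro i j
      obtain ⟨h, hG, rfl⟩ := hTs i j
      rw [← Equiv.sum_comp h.1 (fun r => ∑ c, ind A B C r c (h.2.2 i))]
      apply Finset.sum_congr rfl
      intro r _
      rw [← Equiv.sum_comp h.2.1 (fun c => ind A B C (h.1 r) c (h.2.2 i))]
      apply Finset.sum_congr rfl
      intro c _
      exact (ind_inv hG r c i).symm
    · rw [Finset.sum_comm]
      apply Finset.sum_congr rfl
      intro r _
      exact Finset.sum_comm

end Pool.Agent.Helper37.TP
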